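import Pool.Agent.X88.RBell2

/-!
# A restricted Bell polynomial with a non-real root
-/

set_option autoImplicit false

open Polynomial Finset

namespace Pool.Agent.Results.MP_68af1b_co.NonRealRoot

/-- The restricted Stirling number of the second kind: the number of partitions of an `n`-element
set into exactly `k` nonempty blocks, each with at most `m` elements. -/
noncomputable def restrictedStirling (m n k : ℕ) : ℕ :=
  Fintype.card {Q : Finpartition (Finset.univ : Finset (Fin n)) //
    Q.parts.card = k ∧ ∀ b ∈ Q.parts, b.card ≤ m}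

/-- The restricted Bell polynomial `∑_{k = 0}^{n} restrictedStirling m n k * x ^ k`. -/
noncomputable def restrictedBell (m n : ℕ) : ℂ[X] :=
  ∑ k ∈ Finset.range (n + 1), C (restrictedStirling m n k : ℂ) * X ^ k

/-- The statement of the problem: for all `m ≥ 1` with `m ≠ 3, 4` and all `n ≥ 1`, all complex
roots of the restricted Bell polynomial are real and non-positive. -/
def Question : Prop :=
  ∀ m : ℕ, 1 ≤ m → m ≠ 3 → m ≠ 4 → ∀ n : ℕ, 1 ≤ n →
    ∀ z : ℂ, (restrictedBell m n).IsRoot z → z.im = 0 ∧ z.re ≤ 0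

open Classical in
theorem bell_eq (m n : ℕ) :
    restrictedBell (m + 1) n = (Pool.Agent.X88.RBell.β m n).map (Int.castRingHom ℂ) := by
  rw [← Pool.Agent.X88.RBell.W_eq m n (Finset.univ : Finset (Fin n)) (by simp)]
  unfold Pool.Agent.X88.RBell.W restrictedBell restrictedStirling
  simp only [Polynomial.map_sum, Polynomial.map_pow, Polynomial.map_X]
  have key : ∀ F ∈ Pool.Agent.X88.RBell.PF (m + 1) (Finset.univ : Finset (Fin n)),
      F.card ∈ Finset.range (n + 1) := by
    intro F hF
    rw [Pool.Agent.X88.RBell.mem_PF] at hF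
    rw [Finset.mem_range, Nat.lt_succ_iff]
    have h1 : F.card ≤ ∑ b ∈ F, b.card := by
      rw [Finset.card_eq_sum_ones]
      exact Finset.sum_le_sum fun b hb => (hF.1 b hb).1.card_pos
    have h2 : (F.biUnion id).card = ∑ b ∈ F, b.card :=
      Finset.card_biUnion (fun b hb c hc hne => hF.2.1 b hb c hc hne)
    rw [hF.2.2, Finset.card_univ, Fintype.card_fin] at h2
    omega
  rw [← Finset.sum_fiberwise_of_maps_to key]
  refine Finset.sum_congr rfl fun k _ => ?_
  rw [Finset.sum_congr rfl (g := fun _ => (X : ℂ[X]) ^ k)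
    (fun F hF => by rw [(Finset.mem_filter.1 hF).2]), Finset.sum_const, nsmul_eq_mul, C_eq_natCast]
  congr 2
  rw [Fintype.card_subtype]
  refine Finset.card_bij (fun Q _ => Q.parts) ?_ ?_ ?_
  · intro Q hQ
    rw [Finset.mem_filter] at hQ
    rw [Finset.mem_filter, Pool.Agent.X88.RBell.mem_PF]
    refine ⟨⟨fun b hb => ⟨Q.nonempty_of_mem_parts hb, hQ.2.2 b hb⟩, fun b hb c hc hne =>
      Q.disjoint hb hc hne, Q.biUnion_parts⟩, hQ.2.1⟩
  · intro Q _ Q' _ h
    exact Finpartition.ext h
  · intro F hF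
    rw [Finset.mem_filter, Pool.Agent.X88.RBell.mem_PF] at hF
    obtain ⟨⟨h1, h2, h3⟩, h4⟩ := hF
    refine ⟨⟨F, ?_, ?_, ?_⟩, ?_, rfl⟩
    · rw [Finset.supIndep_iff_pairwiseDisjoint]
      intro b hb c hc hne
      exact h2 b hb c hc hne
    · rw [Finset.sup_eq_biUnion]
      exact h3
    · intro h0
      exact absurd (h1 _ h0).1 (by simp)
    · rw [Finset.mem_filter]
      exact ⟨Finset.mem_univ _, h4, fun b hb => (h1 b hb).2⟩

/-- The restricted Bell polynomial for `m = 5`, `n = 800` has a root that is not real; hence the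
answer to Q1 is negative. -/
theorem result : (∃ z : ℂ, (restrictedBell 5 800).IsRoot z ∧ z.im ≠ 0) ∧ ¬ Question := by
  have h : ∃ z : ℂ, (restrictedBell 5 800).IsRoot z ∧ z.im ≠ 0 := by
    obtain ⟨z, hz, hi⟩ := Pool.Agent.X88.RBell.exists_nonreal _ Pool.Agent.X88.RBell.exact_ineq
    refine ⟨z, ?_, hi⟩
    rw [Polynomial.IsRoot.def, show (5 : ℕ) = 4 + 1 from rfl, bell_eq]
    exact hz
  refine ⟨h, fun hq => ?_⟩
  obtain ⟨z, hz, hi⟩ := h
  exact hi (hq 5 (by norm_num) (by norm_num) (by norm_num) 800 (by norm_num) z hz).1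

end Pool.Agent.Results.MP_68af1b_co.NonRealRoot
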